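import Pool.Agent.Work.MP_a5099b_nt.D4.Main
import Pool.Agent.Work.MP_a5099b_nt.R.Fin

/-!
# Module D6/All (helper91): density one over every number field

`criterion_all`: over a field with a real place Elkies' theorem (`RK.elkies`), over a totally complex field
`DD.criterion`. The rest is `D4/Main` verbatim.
-/

set_option autoImplicit false

namespace Pool.Agent.SS.DA

open NumberField IsDedekindDomain Filter Topology
open Pool.Agent.SS.DD

/-- A number field has a real embedding or is totally complex. -/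
theorem real_or_complex (K : Type) [Field K] [NumberField K] :
    Nonempty (K →+* ℝ) ∨ IsTotallyComplex K := by
  by_cases h : ∃ w : InfinitePlace K, w.IsReal
  · obtain ⟨w, hw⟩ := h
    exact Or.inl ⟨InfinitePlace.embedding_of_isReal hw⟩
  · right
    constructor
    intro w
    rcases w.isReal_or_isComplex with hw | hw
    · exact absurd ⟨w, hw⟩ h
    · exact hw

theorem criterion_all {K : Type} [Field K] [NumberField K]
    {q : ℕ} [hq : Fact q.Prime] (h24 : q % 24 = 1)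
    (hur : ∀ v : HeightOneSpectrum (𝓞 K), (q : 𝓞 K) ∈ v.asIdeal → (q : 𝓞 K) ∉ v.asIdeal ^ 2)
    (W : WeierstrassCurve (𝓞 K)) (hW : W.Δ ≠ 0) (v1 : HeightOneSpectrum (𝓞 K))
    (hS : Sig q W = {v1}) (y : ℤ) (hss : SSj q (y : ZMod q))
    (hJ : ∀ n : ℤ, JMod W v1 n → (n : ZMod q) = (y : ZMod q)) :
    {v : HeightOneSpectrum (𝓞 K) | SSRed W v}.Infinite := by
  rcases real_or_complex K with ⟨⟨ρ⟩⟩ | h
  · exact RK.elkies ρ W hW
  · exact criterion h24 hur W hW v1 hS y hss hJ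

theorem exists_Gq_all {K : Type} [Field K] [NumberField K] {ι : Type} [Fintype ι]
    (b : Module.Basis ι ℤ (𝓞 K)) (q : ℕ) :
    ∃ G : Set (ι ⊕ ι → ZMod q), q.Prime → PP K q →
      (1 / 2 ^ Module.finrank ℚ K : ℝ) / q * (q : ℝ) ^ Fintype.card (ι ⊕ ι) ≤ (G.ncard : ℝ) ∧
      ∀ z ∈ Exc b, (fun i => (z i : ZMod q)) ∉ G := by
  by_cases hq : q.Prime
  swap
  · exact ⟨∅, fun h => absurd h hq⟩
  by_cases hP : PP K q
  swap
  · exact ⟨∅, fun _ h => absurd h hP⟩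
  have : Fact q.Prime := ⟨hq⟩
  obtain ⟨h24, hur, v1, hq1, hc1⟩ := hP
  have h2 := hq.two_le
  obtain ⟨y', hy'⟩ := exists_ss (q := q) (by omega)
  obtain ⟨y, rfl⟩ : ∃ y : ℤ, (y : ZMod q) = y' := ⟨(y'.val : ℤ), by simp⟩
  have h0 : (y : ZMod q) ≠ 0 := by
    intro h
    rw [h] at hy'
    exact not_ss_zero (by omega) (by omega) hy'
  have h1 : (y : ZMod q) ≠ 1728 := by
    intro h
    rw [h] at hy'
    exact not_ss_1728 (by omega) (by omega) hy'
  obtain ⟨G, hG, hGz⟩ := exists_G b (by omega : 17 ≤ q) hur v1 hq1 hc1 y hy' h0 h1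
  refine ⟨G, fun _ _ => ⟨hG, fun z hz hzG => hz ?_⟩⟩
  obtain ⟨hΔ, hS, hJ⟩ := hGz z hzG
  exact ⟨hΔ, criterion_all h24 hur _ hΔ v1 hS y hy' hJ⟩

/-- Uniform form: all boxes with long sides, every number field. -/
theorem main_uniform_all (K : Type) [Field K] [NumberField K] {ι : Type}
    [Fintype ι] (b : Module.Basis ι ℤ (𝓞 K)) (ε : ℝ) (hε : 0 < ε) :
    ∃ L : ℕ, ∀ (a : ι ⊕ ι → ℤ) (T : ι ⊕ ι → ℕ), (∀ i, L ≤ T i) →
      {z : ι ⊕ ι → ℤ | (∀ i, a i ≤ z i ∧ z i < a i + T i) ∧ z ∈ Exc b}.Finite ∧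
      ({z : ι ⊕ ι → ℤ | (∀ i, a i ≤ z i ∧ z i < a i + T i) ∧ z ∈ Exc b}.ncard : ℝ) ≤
        ε * ∏ i, (T i : ℝ) := by
  classical
  choose G hG using exists_Gq_all b
  refine density_uniform (ι ⊕ ι) (Exc b) (1 / 2 ^ Module.finrank ℚ K) (by positivity) (PP K) G ?_
    (fun q hq hP => (hG q hq hP).1) (fun q hq hP => (hG q hq hP).2) ε hε
  intro R
  obtain ⟨S, hS, hR⟩ := deg24 K 0 R
  exact ⟨S, fun q hq => ⟨(hS q hq).1, (hS q hq).2.2.1, (hS q hq).2.2.2.1, (hS q hq).2.2.2.2⟩, hR⟩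

end Pool.Agent.SS.DA
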